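import Mathlib

/-!
# The self-referencing LZ77 size of a suffix is at most `148 z ^ 4`

Positions are counted from `0`; the suffixes of `S` are the lists `S.drop i`.
-/

namespace Pool.Agent.Results.MP_37e11d_lc.SuffixPolynomial

universe u

section defs

variable {α : Type u}

/-- The prefix of length `l` of `S[p..]` has an occurrence in `S` starting at a position `j < p`
(it may overlap the prefix itself). -/
def Earlier (S : List α) (p l : ℕ) : Prop :=
  ∃ j < p, ∀ t < l, S[j + t]? = S[p + t]?

/-- The length of the factor that starts at the position `p`: the least `l ≥ 1` such that the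
prefix of length `l` of `S[p..]` has no earlier occurrence, or the whole rest of `S` if there is no
such prefix. -/
noncomputable def factorLength (S : List α) (p : ℕ) : ℕ :=
  sInf {l | 1 ≤ l ∧ (¬ Earlier S p l ∨ p + l = S.length)}

lemma factorLength_mem (S : List α) {p : ℕ} (hp : p < S.length) :
    1 ≤ factorLength S p ∧
      (¬ Earlier S p (factorLength S p) ∨ p + factorLength S p = S.length) :=
  Nat.sInf_mem (s := {l | 1 ≤ l ∧ (¬ Earlier S p l ∨ p + l = S.length)})
    ⟨S.length - p, by omega, Or.inr (by omega)⟩

/-- The number of factors from the position `p` on. -/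
noncomputable def factorsFrom (S : List α) (p : ℕ) : ℕ :=
  if h : p < S.length then 1 + factorsFrom S (p + factorLength S p) else 0
termination_by S.length - p
decreasing_by
  have := (factorLength_mem S h).1
  omega

/-- The number of factors of the self-referencing LZ77 factorization. -/
noncomputable def zs (S : List α) : ℕ := factorsFrom S 0

end defs

/-! ### Descriptions -/

/-- The prefix of length `p` of `s` can be cut into at most `m` pieces, each of which is a letter or
has an earlier occurrence. -/
inductive D {β : Type u} (s : ℕ → β) : ℕ → ℕ → Prop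
  | nil : D s 0 0
  | mono {p m : ℕ} : D s p m → D s p (m + 1)
  | letter {p m : ℕ} : D s p m → D s (p + 1) (m + 1)
  | copy {p m : ℕ} (q d : ℕ) : D s p m → p ≤ q → 1 ≤ d → d ≤ p →
      (∀ t, p ≤ t → t < q → s t = s (t - d)) → D s q (m + 1)

section greedy

variable {α : Type u} {S : List α}

lemma factorLength_le {p l : ℕ} (h1 : 1 ≤ l) (h2 : ¬ Earlier S p l ∨ p + l = S.length) :
    factorLength S p ≤ l := Nat.sInf_le ⟨h1, h2⟩

lemma factorsFrom_lt {p : ℕ} (h : p < S.length) :
    factorsFrom S p = 1 + factorsFrom S (p + factorLength S p) := by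
  rw [factorsFrom, dif_pos h]

lemma factorsFrom_ge {p : ℕ} (h : S.length ≤ p) : factorsFrom S p = 0 := by
  rw [factorsFrom, dif_neg (by omega)]

/-- the greedy factorization gives a description -/
lemma D_of_factors : ∀ (z p m : ℕ), factorsFrom S p = z → p ≤ S.length →
    D (fun k => S[k]?) p m → D (fun k => S[k]?) S.length (m + 2 * z) := by
  intro z
  induction z with
  | zero =>
    intro p m hz hp hD
    have : ¬ p < S.length := by
      intro h
      rw [factorsFrom_lt h] at hz
      omega
    have hp' : p = S.length := by omega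
    rw [← hp']
    simpa using hD
  | succ z ih =>
    intro p m hz hp hD
    have hlt : p < S.length := by
      by_contra h
      rw [factorsFrom_ge (by omega)] at hz
      omega
    rw [factorsFrom_lt hlt] at hz
    obtain ⟨h1, h2⟩ := factorLength_mem S hlt
    have hle : factorLength S p ≤ S.length - p := factorLength_le (by omega) (Or.inr (by omega))
    set l := factorLength S p with hl
    have hD' : D (fun k => S[k]?) (p + (l - 1)) (m + 1) := by
      by_cases h0 : l = 1
      · rw [h0]
        exact D.mono hD
      · have h3 : Earlier S p (l - 1) := by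
          by_contra h4
          have := factorLength_le (S := S) (p := p) (l := l - 1) (by omega) (Or.inl h4)
          omega
        obtain ⟨j, hj, h4⟩ := h3
        refine D.copy _ (p - j) hD (by omega) (by omega) (by omega) ?_
        intro t ht1 ht2
        have := h4 (t - p) (by omega)
        rw [show j + (t - p) = t - (p - j) by omega, show p + (t - p) = t by omega] at this
        exact this.symm
    have hD'' := D.letter hD'
    rw [show p + (l - 1) + 1 = p + l by omega] at hD''
    have := ih (p + l) (m + 1 + 1) (by omega) (by omega) hD''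
    rw [show m + 1 + 1 + 2 * z = m + 2 * (z + 1) by ring] at this
    exact this

/-- the greedy factorization is optimal -/
lemma factors_of_D {p m : ℕ} (h : D (fun k => S[k]?) p m) (hp : p ≤ S.length) :
    ∃ g, p ≤ g ∧ zs S ≤ m + factorsFrom S g := by
  induction h with
  | nil => exact ⟨0, le_rfl, by rw [zs]; omega⟩
  | mono _ ih =>
    obtain ⟨g, h1, h2⟩ := ih hp
    exact ⟨g, h1, by omega⟩
  | @letter p m _ ih =>
    obtain ⟨g, h1, h2⟩ := ih (by omega)
    by_cases hg : p + 1 ≤ g
    · exact ⟨g, hg, by omega⟩
    · have hlt : g < S.length := by omega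
      have h3 := (factorLength_mem S hlt).1
      rw [factorsFrom_lt hlt] at h2
      exact ⟨g + factorLength S g, by omega, by omega⟩
  | @copy p m q d _ hpq hd1 hdp hs ih =>
    obtain ⟨g, h1, h2⟩ := ih (by omega)
    by_cases hg : q ≤ g
    · exact ⟨g, hg, by omega⟩
    · have hlt : g < S.length := by omega
      obtain ⟨h3, h4⟩ := factorLength_mem S hlt
      rw [factorsFrom_lt hlt] at h2
      refine ⟨g + factorLength S g, ?_, by omega⟩
      by_contra h5
      rcases h4 with h4 | h4
      · apply h4
        refine ⟨g - d, by omega, ?_⟩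
        intro t ht
        have := hs (g + t) (by omega) (by omega)
        rw [this]
        congr 1
        omega
      · omega

lemma zs_le {m : ℕ} (h : D (fun k => S[k]?) S.length m) : zs S ≤ m := by
  obtain ⟨g, h1, h2⟩ := factors_of_D h le_rfl
  rw [factorsFrom_ge h1] at h2
  omega

end greedy

/-! ### Closed sets of positions -/

/-- The word `s[x, y)` is a letter or the beginning of the periodic word with the period
`s[a, b) s[a', b')`, where `a, b, a', b' ∈ B` and both words are shorter. -/
def Exp {β : Type u} (s : ℕ → β) (B : Finset ℕ) (x y : ℕ) : Prop :=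
  y = x + 1 ∨ ∃ a ∈ B, ∃ b ∈ B, ∃ a' ∈ B, ∃ b' ∈ B, a ≤ b ∧ a' ≤ b' ∧ b - a < y - x ∧
    b' - a' < y - x ∧ 1 ≤ (b - a) + (b' - a') ∧ (b - a) + (b' - a') ≤ y - x ∧
    (∀ t < b - a, s (x + t) = s (a + t)) ∧
    (∀ t < b' - a', s (x + (b - a) + t) = s (a' + t)) ∧
    ∀ t, t + ((b - a) + (b' - a')) < y - x → s (x + (t + ((b - a) + (b' - a')))) = s (x + t)

/-- All the words with ends in `B` can be expanded. -/
def Good {β : Type u} (s : ℕ → β) (B : Finset ℕ) : Prop :=
  ∀ x ∈ B, ∀ y ∈ B, x < y → Exp s B x y

lemma Exp.transfer {β : Type u} {s : ℕ → β} {B B' : Finset ℕ} (hB : B ⊆ B') {x y x' y' : ℕ}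
    (h : Exp s B x y) (hl : y - x = y' - x') (_hxy : x < y) (hxy' : x' < y')
    (hs : ∀ t < y - x, s (x' + t) = s (x + t)) : Exp s B' x' y' := by
  rcases h with h | ⟨a, ha, b, hb, a', ha', b', hb', h1, h2, h3, h4, h5, h6, h7, h8, h9⟩
  · left; omega
  · right
    refine ⟨a, hB ha, b, hB hb, a', hB ha', b', hB hb', h1, h2, by omega, by omega, h5, by omega,
      ?_, ?_, ?_⟩
    · intro t ht
      rw [hs t (by omega), h7 t ht]
    · intro t ht
      rw [show x' + (b - a) + t = x' + ((b - a) + t) by ring, hs _ (by omega),
        show x + ((b - a) + t) = x + (b - a) + t by ring, h8 t ht]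
    · intro t ht
      rw [hs _ (by omega), hs _ (by omega), h9 t (by omega)]

/-- The pull-back of a position. -/
def pb (p d x : ℕ) : ℕ := (p - d) + (x - (p - d)) % d

lemma pb_lt {p d x : ℕ} (hd1 : 1 ≤ d) (hdp : d ≤ p) : pb p d x < p := by
  have := Nat.mod_lt (x - (p - d)) hd1
  unfold pb
  omega

lemma pb_eq {p d y0 k : ℕ} (h1 : p - d ≤ y0) (h2 : y0 < p) (hdp : d ≤ p) :
    pb p d (y0 + k * d) = y0 := by
  unfold pb
  have h3 : y0 + k * d - (p - d) = (y0 - (p - d)) + d * k := by
    rw [mul_comm d k]; omega
  rw [h3, Nat.add_mul_mod_self_left, Nat.mod_eq_of_lt (by omega)]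
  omega

lemma pb_spec {p d x : ℕ} (hx : p ≤ x) : ∃ k, x = pb p d x + k * d := by
  refine ⟨(x - (p - d)) / d, ?_⟩
  have := Nat.mod_add_div (x - (p - d)) d
  unfold pb
  rw [mul_comm ((x - (p - d)) / d) d]
  omega

lemma shift {β : Type u} {s : ℕ → β} {p q d : ℕ} (hdp : d ≤ p)
    (hs : ∀ t, p ≤ t → t < q → s t = s (t - d)) :
    ∀ k u : ℕ, p - d ≤ u → u + k * d < q → s (u + k * d) = s u := by
  intro k
  induction k with
  | zero => intro u _ _; simp
  | succ k ih =>
    intro u h1 h2
    have h3 : u + (k + 1) * d = u + k * d + d := by ring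
    rw [h3] at h2 ⊢
    rw [hs _ (by omega) h2, Nat.add_sub_cancel]
    exact ih u h1 (by omega)

lemma exists_closed {β : Type u} {s : ℕ → β} {p m : ℕ} (h : D s p m) :
    ∀ X : Finset ℕ, (∀ x ∈ X, x ≤ p) → ∃ B : Finset ℕ, X ⊆ B ∧ (∀ x ∈ B, x ≤ p) ∧ Good s B ∧
      B.card + m ≤ m * X.card + m * m + 1 := by
  induction h with
  | nil =>
    intro X hX
    refine ⟨{0}, ?_, ?_, ?_, by simp⟩
    · intro x hx
      have := hX x hx
      simp; omega
    · intro x hx; simp at hx; omega
    · intro x hx y hy hxy
      simp at hx hy
      omega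
  | mono _ ih =>
    intro X hX
    obtain ⟨B, h1, h2, h3, h4⟩ := ih X hX
    exact ⟨B, h1, h2, h3, by nlinarith⟩
  | @letter p m _ ih =>
    intro X hX
    obtain ⟨B, h1, h2, h3, h4⟩ := ih (insert p (X.filter (· ≤ p))) (by
      intro x hx
      simp only [Finset.mem_insert, Finset.mem_filter] at hx
      omega)
    have hX1 : (insert p (X.filter (· ≤ p))).card ≤ X.card + 1 :=
      (Finset.card_insert_le _ _).trans (by
        have := Finset.card_filter_le X (· ≤ p)
        omega)
    have hpB : p ∈ B := h1 (Finset.mem_insert_self _ _)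
    refine ⟨B ∪ X, Finset.subset_union_right, ?_, ?_, ?_⟩
    · intro x hx
      rcases Finset.mem_union.mp hx with hx | hx
      · have := h2 x hx; omega
      · exact hX x hx
    · have hmem : ∀ x ∈ B ∪ X, x ≤ p → x ∈ B := by
        intro x hx hxp
        rcases Finset.mem_union.mp hx with hx | hx
        · exact hx
        · exact h1 (Finset.mem_insert_of_mem (Finset.mem_filter.mpr ⟨hx, hxp⟩))
      have hle : ∀ x ∈ B ∪ X, x ≤ p + 1 := by
        intro x hx
        rcases Finset.mem_union.mp hx with hx | hx
        · have := h2 x hx; omega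
        · exact hX x hx
      intro x hx y hy hxy
      have hx1 := hle x hx
      have hy1 := hle y hy
      by_cases hyp : y ≤ p
      · exact (h3 x (hmem x hx (by omega)) y (hmem y hy hyp) hxy).transfer
          Finset.subset_union_left rfl hxy hxy (fun _ _ => rfl)
      · by_cases hxp : x = p
        · left; omega
        · right
          have hy2 : y = p + 1 := by omega
          refine ⟨x, hx, p, Finset.mem_union_left _ hpB, p, Finset.mem_union_left _ hpB, y, hy,
            by omega, by omega, by omega, by omega, by omega, by omega, fun _ _ => rfl, ?_, ?_⟩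
          · intro t ht
            congr 1; omega
          · intro t ht
            omega
    · have hu := Finset.card_union_le B X
      have : m * (insert p (X.filter (· ≤ p))).card ≤ m * (X.card + 1) :=
        Nat.mul_le_mul_left _ hX1
      nlinarith
  | @copy p m q d _ hpq hd1 hdp hs ih =>
    intro X hX
    obtain ⟨Y, hY⟩ : ∃ Y : Finset ℕ, Y = insert p (insert (p - d) (X.image fun x =>
      if x ≤ p then x else pb p d x)) := ⟨_, rfl⟩
    have hYcard : Y.card ≤ X.card + 2 := by
      rw [hY]
      have e1 := Finset.card_insert_le p (insert (p - d) (X.image fun x =>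
        if x ≤ p then x else pb p d x))
      have e2 := Finset.card_insert_le (p - d) (X.image fun x =>
        if x ≤ p then x else pb p d x)
      have e3 := Finset.card_image_le (s := X) (f := fun x => if x ≤ p then x else pb p d x)
      omega
    obtain ⟨B, h1, h2, h3, h4⟩ := ih Y (by
      intro x hx
      rw [hY] at hx
      simp only [Finset.mem_insert, Finset.mem_image] at hx
      rcases hx with rfl | rfl | ⟨x', hx', rfl⟩
      · omega
      · omega
      · split_ifs with h
        · exact h
        · exact (pb_lt hd1 hdp).le)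
    have hpB : p ∈ B := h1 (by rw [hY]; exact Finset.mem_insert_self _ _)
    have hpdB : p - d ∈ B := h1 (by
      rw [hY]; exact Finset.mem_insert_of_mem (Finset.mem_insert_self _ _))
    have hXB : ∀ x ∈ X, (if x ≤ p then x else pb p d x) ∈ B := fun x hx => h1 (by
      rw [hY]
      exact Finset.mem_insert_of_mem (Finset.mem_insert_of_mem (Finset.mem_image_of_mem _ hx)))
    have hBle : ∀ x ∈ B ∪ X, x ≤ q := by
      intro x hx
      rcases Finset.mem_union.mp hx with hx | hx
      · have := h2 x hx; omega
      · exact hX x hx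
    have hmem : ∀ x ∈ B ∪ X, x ≤ p → x ∈ B := by
      intro x hx hxp
      rcases Finset.mem_union.mp hx with hx | hx
      · exact hx
      · have := hXB x hx
        rwa [if_pos hxp] at this
    have hmem' : ∀ x ∈ B ∪ X, p < x → pb p d x ∈ B := by
      intro x hx hxp
      rcases Finset.mem_union.mp hx with hx | hx
      · have := h2 x hx
        omega
      · have := hXB x hx
        rwa [if_neg (by omega)] at this
    have hmem'' : ∀ x ∈ B ∪ X, p ≤ x → pb p d x ∈ B := by
      intro x hx hxp
      rcases Nat.lt_or_ge p x with h | h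
      · exact hmem' x hx h
      · have hxp' : x = p - d + 1 * d := by omega
        rw [hxp', pb_eq le_rfl (by omega) hdp]
        exact hpdB
    refine ⟨B ∪ X, Finset.subset_union_right, hBle, ?_, ?_⟩
    · intro x hx y hy hxy
      have hyq := hBle y hy
      by_cases hyp : y ≤ p
      · exact (h3 x (hmem x hx (by omega)) y (hmem y hy hyp) hxy).transfer
          Finset.subset_union_left rfl hxy hxy (fun _ _ => rfl)
      by_cases hxp : x < p
      · right
        refine ⟨x, hx, p, Finset.mem_union_left _ hpB, p, Finset.mem_union_left _ hpB, y, hy,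
          by omega, by omega, by omega, by omega, by omega, by omega, fun _ _ => rfl, ?_, ?_⟩
        · intro t ht
          congr 1; omega
        · intro t ht
          omega
      -- both ends in the copied piece
      have hx0 := hmem'' x hx (by omega)
      obtain ⟨k, hk⟩ := pb_spec (p := p) (d := d) (x := x) (by omega)
      have hx0lt : pb p d x < p := pb_lt hd1 hdp
      have hx0ge : p - d ≤ pb p d x := Nat.le_add_right _ _
      set x0 := pb p d x with hx0def
      obtain ⟨y0, hy0⟩ : ∃ y0, y0 = x0 + (y - x) := ⟨_, rfl⟩
      have hyk : y = y0 + k * d := by omega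
      have hsh : ∀ t < y - x, s (x + t) = s (x0 + t) := by
        intro t ht
        have := shift hdp hs k (x0 + t) (by omega) (by omega)
        rw [← this]
        congr 1
        omega
      by_cases hy0p : y0 ≤ p
      · have hy0B : y0 ∈ B := by
          rcases Nat.lt_or_ge y0 p with h | h
          · have := hmem' y hy (by omega)
            rwa [hyk, pb_eq (by omega) h hdp] at this
          · rwa [show y0 = p by omega]
        exact (h3 x0 hx0 y0 hy0B (by omega)).transfer Finset.subset_union_left (by omega)
          (by omega) hxy (fun t ht => hsh t (by omega))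
      by_cases hy0d : y0 ≤ x0 + d
      · have hy1 : y0 - d ∈ B := by
          have := hmem' y hy (by omega)
          have h5 : y = (y0 - d) + (k + 1) * d := by
            have : (k + 1) * d = k * d + d := by ring
            omega
          rwa [h5, pb_eq (by omega) (by omega) hdp] at this
        right
        refine ⟨x0, Finset.mem_union_left _ hx0, p, Finset.mem_union_left _ hpB, p - d,
          Finset.mem_union_left _ hpdB, y0 - d, Finset.mem_union_left _ hy1, by omega, by omega,
          by omega, by omega, by omega, by omega, fun t ht => hsh t (by omega), ?_, ?_⟩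
        · intro t ht
          rw [show x + (p - x0) + t = x + ((p - x0) + t) by ring, hsh _ (by omega),
            hs _ (by omega) (by omega)]
          congr 1
          omega
        · intro t ht
          omega
      · right
        refine ⟨x0, Finset.mem_union_left _ hx0, p, Finset.mem_union_left _ hpB, p - d,
          Finset.mem_union_left _ hpdB, x0, Finset.mem_union_left _ hx0, by omega, by omega,
          by omega, by omega, by omega, by omega, fun t ht => hsh t (by omega), ?_, ?_⟩
        · intro t ht
          rw [show x + (p - x0) + t = x + ((p - x0) + t) by ring, hsh _ (by omega),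
            hs _ (by omega) (by omega)]
          congr 1
          omega
        · intro t ht
          rw [hs _ (by omega) (by omega)]
          congr 1
          omega
    · have hu := Finset.card_union_le B X
      have : m * Y.card ≤ m * (X.card + 2) := Nat.mul_le_mul_left _ hYcard
      nlinarith

/-! ### The potential argument -/

/-- The word `s[v.1, v.2)` occurs in the prefix of length `r` of `T`. -/
def Occurs {β : Type u} (T s : ℕ → β) (r : ℕ) (v : ℕ × ℕ) : Prop :=
  ∃ j, j + (v.2 - v.1) ≤ r ∧ ∀ t < v.2 - v.1, T (j + t) = s (v.1 + t)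

lemma Occurs.mono {β : Type u} {T s : ℕ → β} {r r' : ℕ} {v : ℕ × ℕ} (h : Occurs T s r v)
    (hr : r ≤ r') : Occurs T s r' v := by
  obtain ⟨j, h1, h2⟩ := h
  exact ⟨j, h1.trans hr, h2⟩

open Classical in
/-- The words with ends in `B` of length at most `l` that occur in the prefix of length `r'` but
not in the prefix of length `r`. -/
noncomputable def New {β : Type u} (T s : ℕ → β) (B : Finset ℕ) (l r r' : ℕ) :
    Finset (ℕ × ℕ) :=
  (B ×ˢ B).filter fun v => v.2 - v.1 ≤ l ∧ Occurs T s r' v ∧ ¬ Occurs T s r v

lemma mem_New {β : Type u} {T s : ℕ → β} {B : Finset ℕ} {l r r' : ℕ} {v : ℕ × ℕ} :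
    v ∈ New T s B l r r' ↔ (v.1 ∈ B ∧ v.2 ∈ B) ∧ v.2 - v.1 ≤ l ∧ Occurs T s r' v ∧
      ¬ Occurs T s r v := by
  classical
  simp only [New, Finset.mem_filter, Finset.mem_product]

lemma expand {β : Type u} {T s : ℕ → β} {B : Finset ℕ} (hB : Good s B) :
    ∀ l : ℕ, ∀ x ∈ B, ∀ y ∈ B, x < y → y - x = l → ∀ r m : ℕ, D T r m →
      (∀ t < y - x, T (r + t) = s (x + t)) →
      ∃ m', D T (r + (y - x)) m' ∧ m' ≤ m + 1 + 3 * (New T s B l r (r + (y - x))).card := by
  intro l
  induction l using Nat.strong_induction_on with
  | _ l ih =>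
  intro x hx y hy hxy hl r m hD hT
  by_cases hocc : Occurs T s r (x, y)
  · obtain ⟨j, h1, h2⟩ := hocc
    simp only at h1 h2
    refine ⟨m + 1, D.copy _ (r - j) hD (by omega) (by omega) (by omega) ?_, by omega⟩
    intro t ht1 ht2
    have e1 := hT (t - r) (by omega)
    have e2 := h2 (t - r) (by omega)
    rw [show r + (t - r) = t by omega] at e1
    rw [e1, ← e2]
    congr 1
    omega
  rcases hB x hx y hy hxy with h | ⟨a, ha, b, hb, a', ha', b', hb', h1, h2, h3, h4, h5, h6, h7,
    h8, h9⟩
  · refine ⟨m + 1, ?_, by omega⟩
    rw [show y - x = 1 by omega]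
    exact D.letter hD
  · obtain ⟨m1, hD1, hm1⟩ : ∃ m1, D T (r + (b - a)) m1 ∧
        m1 ≤ m + 1 + 3 * (New T s B (b - a) r (r + (b - a))).card := by
      rcases Nat.eq_or_lt_of_le h1 with h | h
      · refine ⟨m, ?_, by omega⟩
        rw [h, Nat.sub_self, Nat.add_zero]
        exact hD
      · refine ih (b - a) (by omega) a ha b hb h rfl r m hD ?_
        intro t ht
        rw [hT t (by omega), h7 t ht]
    obtain ⟨m2, hD2, hm2⟩ : ∃ m2, D T (r + (b - a) + (b' - a')) m2 ∧
        m2 ≤ m1 + 1 + 3 * (New T s B (b' - a') (r + (b - a)) (r + (b - a) + (b' - a'))).card := by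
      rcases Nat.eq_or_lt_of_le h2 with h | h
      · refine ⟨m1, ?_, by omega⟩
        rw [h, Nat.sub_self, Nat.add_zero]
        exact hD1
      · refine ih (b' - a') (by omega) a' ha' b' hb' h rfl _ m1 hD1 ?_
        intro t ht
        rw [show r + (b - a) + t = r + ((b - a) + t) by ring, hT _ (by omega), ← h8 t ht]
        congr 1
        ring
    refine ⟨m2 + 1, D.copy _ ((b - a) + (b' - a')) hD2 (by omega) h5 (by omega) ?_, ?_⟩
    · intro t ht1 ht2
      have e1 := hT (t - r) (by omega)
      have e2 := h9 (t - r - ((b - a) + (b' - a'))) (by omega)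
      have e3 := hT (t - r - ((b - a) + (b' - a'))) (by omega)
      rw [show r + (t - r) = t by omega] at e1
      rw [show t - r - ((b - a) + (b' - a')) + ((b - a) + (b' - a')) = t - r by omega] at e2
      rw [e1, e2, ← e3]
      congr 1
      omega
    · -- the count
      have hsub : insert (x, y) (New T s B (b - a) r (r + (b - a)) ∪
          New T s B (b' - a') (r + (b - a)) (r + (b - a) + (b' - a'))) ⊆
          New T s B l r (r + (y - x)) := by
        intro v hv
        rcases Finset.mem_insert.mp hv with rfl | hv
        · exact mem_New.mpr ⟨⟨hx, hy⟩, hl.le, ⟨r, le_rfl, hT⟩, hocc⟩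
        · rcases Finset.mem_union.mp hv with hv | hv
          · obtain ⟨e1, e2, e3, e4⟩ := mem_New.mp hv
            exact mem_New.mpr ⟨e1, by omega, e3.mono (by omega), e4⟩
          · obtain ⟨e1, e2, e3, e4⟩ := mem_New.mp hv
            exact mem_New.mpr ⟨e1, by omega, e3.mono (by omega),
              fun h => e4 (h.mono (by omega))⟩
      have hnot : (x, y) ∉ New T s B (b - a) r (r + (b - a)) ∪
          New T s B (b' - a') (r + (b - a)) (r + (b - a) + (b' - a')) := by
        intro hv
        rcases Finset.mem_union.mp hv with hv | hv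
        · have := (mem_New.mp hv).2.1
          simp only at this
          omega
        · have := (mem_New.mp hv).2.1
          simp only at this
          omega
      have hdisj : Disjoint (New T s B (b - a) r (r + (b - a)))
          (New T s B (b' - a') (r + (b - a)) (r + (b - a) + (b' - a'))) := by
        rw [Finset.disjoint_left]
        intro v hv hv'
        exact (mem_New.mp hv').2.2.2 (mem_New.mp hv).2.2.1
      have := Finset.card_le_card hsub
      rw [Finset.card_insert_of_notMem hnot, Finset.card_union_of_disjoint hdisj] at this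
      omega

/-- A description of the prefix of length `n` of `s` gives a description of each segment. -/
lemma segment {β : Type u} {s : ℕ → β} {n m : ℕ} (h : D s n m) (i : ℕ) (hi : i < n) :
    ∃ m', D (fun t => s (i + t)) (n - i) m' ∧ m' ≤ 1 + 3 * (m + m * m + 1) ^ 2 := by
  obtain ⟨B, h1, h2, h3, h4⟩ := exists_closed h {i, n} (by
    intro x hx
    simp only [Finset.mem_insert, Finset.mem_singleton] at hx
    omega)
  have hc : ({i, n} : Finset ℕ).card ≤ 2 := Finset.card_le_two
  have hB : B.card ≤ m + m * m + 1 := by nlinarith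
  obtain ⟨m', h5, h6⟩ := expand (T := fun t => s (i + t)) h3 (n - i) i (h1 (by simp)) n
    (h1 (by simp)) hi rfl 0 0 D.nil (by intro t _; simp)
  rw [Nat.zero_add] at h5 h6
  rw [Nat.zero_add] at h6
  refine ⟨m', h5, h6.trans ?_⟩
  have h7 : (New (fun t => s (i + t)) s B (n - i) 0 (n - i)).card ≤ B.card * B.card := by
    classical
    unfold New
    refine (Finset.card_filter_le _ _).trans ?_
    rw [Finset.card_product]
  have h8 : B.card * B.card ≤ (m + m * m + 1) * (m + m * m + 1) :=
    Nat.mul_le_mul hB hB
  nlinarith

/-- **The self-referencing LZ77 size of a suffix is polynomially bounded in the size of the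
string**: `zs (S[i..]) ≤ 148 * zs S ^ 4`; so there is a constant `c ≥ 1` (namely `148`) with
`zs (S[i..]) ≤ c * zs S ^ c`. -/
theorem result :
    (∀ (α : Type u) (S : List α) (i : ℕ), zs (S.drop i) ≤ 148 * zs S ^ 4) ∧
    ∃ c : ℕ, 1 ≤ c ∧ ∀ (α : Type u) (S : List α) (i : ℕ), zs (S.drop i) ≤ c * zs S ^ c := by
  have key : ∀ (α : Type u) (S : List α) (i : ℕ), zs (S.drop i) ≤ 148 * zs S ^ 4 := by
    intro α S i
    rcases Nat.lt_or_ge i S.length with hi | hi
    · have hpos : 1 ≤ zs S := by
        rw [zs, factorsFrom_lt (by omega)]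
        omega
      have h1 := D_of_factors (S := S) (zs S) 0 0 rfl (by omega) D.nil
      obtain ⟨m', h2, h3⟩ := segment h1 i hi
      have h4 : zs (S.drop i) ≤ m' := by
        apply zs_le
        have e : (fun k => (S.drop i)[k]?) = fun t => S[i + t]? := by
          funext k
          rw [List.getElem?_drop]
        rw [e, List.length_drop]
        exact h2
      refine h4.trans (h3.trans ?_)
      set z := zs S with hz
      have h5 : (0 + 2 * z) + (0 + 2 * z) * (0 + 2 * z) + 1 ≤ 7 * z ^ 2 := by nlinarith
      have h6 : 1 ≤ z ^ 4 := Nat.one_le_pow _ _ hpos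
      have h7 := Nat.pow_le_pow_left h5 2
      have h8 : (7 * z ^ 2) ^ 2 = 49 * z ^ 4 := by ring
      rw [h8] at h7
      omega
    · have : zs (S.drop i) = 0 := by
        rw [List.drop_eq_nil_of_le hi, zs, factorsFrom_ge (by simp)]
      omega
  refine ⟨key, 148, by norm_num, fun α S i => (key α S i).trans ?_⟩
  rcases Nat.eq_zero_or_pos (zs S) with h | h
  · rw [h]; norm_num
  · exact Nat.mul_le_mul_left _ (Nat.pow_le_pow_right h (by norm_num))

end Pool.Agent.Results.MP_37e11d_lc.SuffixPolynomial
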